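import Pool.Agent.Helper74.HG.Goals

/-!
# Project HG, packet ZINV: the zeta function and isomorphisms (after helper43, ZIS)
-/

set_option autoImplicit false

namespace Pool.Agent.Helper89.HG.ZINV

open Pool.Agent.Helper74.HG MvPolynomial

/-- the values of a polynomial without constant term at the arcs -/
lemma aeval_mem (K : Type) [Field K] {σ : Type} (m : ℕ) (P : MvPolynomial σ ℤ)
    (hP : constantCoeff P = 0) (x : σ → Tr K m) (hx : x ∈ Arc K σ m) :
    aeval x P ∈ Ideal.span {tt K m} := by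
  rw [← Ideal.Quotient.eq_zero_iff_mem]
  have h0 : (Ideal.Quotient.mkₐ ℤ (Ideal.span {tt K m})).comp (aeval x) =
      aeval (fun i => Ideal.Quotient.mkₐ ℤ (Ideal.span {tt K m}) (x i)) := by
    apply MvPolynomial.algHom_ext
    intro i
    rw [AlgHom.comp_apply, aeval_X, aeval_X]
  have h1 : Ideal.Quotient.mkₐ ℤ (Ideal.span {tt K m}) (aeval x P) =
      aeval (fun i => Ideal.Quotient.mkₐ ℤ (Ideal.span {tt K m}) (x i)) P :=
    DFunLike.congr_fun h0 P
  have h2 : (fun i => Ideal.Quotient.mkₐ ℤ (Ideal.span {tt K m}) (x i)) = fun _ => 0 := by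
    funext i
    exact Ideal.Quotient.eq_zero_iff_mem.2 (hx i)
  rw [h2, aeval_zero', hP, map_zero] at h1
  exact h1

/-- the number of arcs and inverse substitutions -/
lemma cnt_eq (K : Type) [Field K] {σ τ : Type} (P : σ → MvPolynomial τ ℤ)
    (Q : τ → MvPolynomial σ ℤ) (hP : ∀ i, constantCoeff (P i) = 0)
    (hQ : ∀ j, constantCoeff (Q j) = 0) (hPQ : ∀ j, bind₁ P (Q j) = X j)
    (hQP : ∀ i, bind₁ Q (P i) = X i) (G : MvPolynomial σ ℤ) (m : ℕ) :
    cnt K (bind₁ P G) m = cnt K G m := by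
  let e : (τ → Tr K m) ≃ (σ → Tr K m) :=
    { toFun := fun x i => aeval x (P i)
      invFun := fun y j => aeval y (Q j)
      left_inv := fun x => by
        funext j
        show aeval (fun i => aeval x (P i)) (Q j) = x j
        rw [← aeval_bind₁, hPQ, aeval_X]
      right_inv := fun y => by
        funext i
        show aeval (fun j => aeval y (Q j)) (P i) = y i
        rw [← aeval_bind₁, hQP, aeval_X] }
  have harc : ∀ x : τ → Tr K m, x ∈ Arc K τ m ↔ e x ∈ Arc K σ m := by
    intro x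
    constructor
    · intro hx i
      exact aeval_mem K m (P i) (hP i) x hx
    · intro hx
      have h1 : e.symm (e x) ∈ Arc K τ m := fun j => aeval_mem K m (Q j) (hQ j) (e x) hx
      rwa [e.symm_apply_apply] at h1
  have h1 : Jet K (bind₁ P G) m = e.symm '' Jet K G m := by
    rw [Equiv.image_symm_eq_preimage]
    ext x
    show (x ∈ Arc K τ m ∧ tt K m * aeval x (bind₁ P G) = 0 ∧ aeval x (bind₁ P G) ≠ 0) ↔
      (e x ∈ Arc K σ m ∧ tt K m * aeval (fun i => aeval x (P i)) G = 0 ∧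
        aeval (fun i => aeval x (P i)) G ≠ 0)
    rw [harc, aeval_bind₁]
  unfold cnt
  rw [h1]
  exact Set.ncard_image_of_injective _ e.symm.injective

/-- the numbers of variables -/
lemma card_eq {σ τ : Type} [Fintype σ] [Fintype τ]
    (φ : MvPolynomial σ ℤ ≃ₐ[ℤ] MvPolynomial τ ℤ) : Fintype.card σ = Fintype.card τ := by
  have h := φ.trdeg_eq
  rw [MvPolynomial.trdeg_of_isDomain, MvPolynomial.trdeg_of_isDomain] at h
  simpa using h

lemma const_bind {σ τ : Type} (P : σ → MvPolynomial τ ℤ) (hP : ∀ i, constantCoeff (P i) = 0)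
    (F : MvPolynomial σ ℤ) : constantCoeff (bind₁ P F) = constantCoeff F := by
  rw [hom_bind₁]
  have h : (fun i => constantCoeff (P i)) = fun _ => 0 := funext hP
  rw [h, eval₂Hom_zero'_apply]
  simp

theorem cnt_iso {σ τ : Type} [Fintype σ] [Fintype τ]
    (φ : MvPolynomial σ ℤ ≃ₐ[ℤ] MvPolynomial τ ℤ) (hφ : Pres φ) (f : MvPolynomial σ ℤ)
    (K : Type) [Field K] (m : ℕ) : cnt K (φ f) m = cnt K f m := by
  have hφe : ∀ F : MvPolynomial σ ℤ, bind₁ (fun i => φ (X i)) F = φ F := by
    intro F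
    have h : (bind₁ (fun i => φ (X i)) : MvPolynomial σ ℤ →ₐ[ℤ] MvPolynomial τ ℤ) =
        φ.toAlgHom := by
      apply MvPolynomial.algHom_ext
      intro i
      simp
    exact DFunLike.congr_fun h F
  have hφs : ∀ F : MvPolynomial τ ℤ, bind₁ (fun j => φ.symm (X j)) F = φ.symm F := by
    intro F
    have h : (bind₁ (fun j => φ.symm (X j)) : MvPolynomial τ ℤ →ₐ[ℤ] MvPolynomial σ ℤ) =
        φ.symm.toAlgHom := by
      apply MvPolynomial.algHom_ext
      intro i
      simp
    exact DFunLike.congr_fun h F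
  have hφ' : ∀ j, constantCoeff (φ.symm (X j)) = 0 := by
    intro j
    have h1 := const_bind (fun i => φ (X i)) hφ (φ.symm (X j))
    rw [hφe, AlgEquiv.apply_symm_apply, constantCoeff_X] at h1
    exact h1.symm
  have h := cnt_eq K (fun i => φ (X i)) (fun j => φ.symm (X j)) hφ hφ'
    (fun j => by rw [hφe, AlgEquiv.apply_symm_apply])
    (fun i => by rw [hφs, AlgEquiv.symm_apply_apply]) f m
  rw [hφe] at h
  exact h

theorem t : Pool.Agent.Helper74.HG.ZINV := by
  intro σ τ _ _ φ hφ f Z hZ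
  obtain ⟨L, p₀, h1, h2, h3⟩ := hZ
  refine ⟨L, p₀, h1, fun p _ hp => ?_, h3⟩
  obtain ⟨h4, h5⟩ := h2 p hp
  refine ⟨h4, fun e m he => ?_⟩
  rw [cnt_iso φ hφ f, ← card_eq φ]
  exact h5 e m he

/-- with the hypothesis of the packet -/
theorem t' (_hl : Pool.Agent.Helper74.HG.LIFT) : Pool.Agent.Helper74.HG.ZINV := t

end Pool.Agent.Helper89.HG.ZINV
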